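import Pool.Agent.X171.SD.Space

/-!
# Spaces of continuous maps into a strong `d`-space

Negative answer to Q1 of MP_5f2357_gt: there are a `T₀` space `X` (the discrete space with two
points) and a strong `d`-space `Y` such that the space of continuous maps `X → Y`, with the
topology of pointwise convergence, is not a strong `d`-space.
-/

set_option autoImplicit false

open Set Topology

namespace Pool.Agent.Results.MP_5f2357_gt.FunctionSpaceFails

/-- The set `↑x` of the points `y` with `x ≤ y` in the specialization order (`x ≤ y` iff `x` is in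
the closure of `{y}`). -/
def up {X : Type*} [TopologicalSpace X] (x : X) : Set X := {y | x ∈ closure {y}}

/-- `D` is a non-empty directed subset for the specialization order. -/
def IsDirectedSet {X : Type*} [TopologicalSpace X] (D : Set X) : Prop :=
  D.Nonempty ∧ ∀ a ∈ D, ∀ b ∈ D, ∃ e ∈ D, a ∈ closure {e} ∧ b ∈ closure {e}

/-- `X` is a strong `d`-space: it is `T₀` and, for every directed `D`, every `x` and every open `U`,
if the intersection of `⋂ d ∈ D, ↑d` with `↑x` is contained in `U`, then `↑d ∩ ↑x ⊆ U` for some
`d ∈ D`. -/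
def StrongDSpace (X : Type*) [TopologicalSpace X] : Prop :=
  T0Space X ∧ ∀ D : Set X, IsDirectedSet D → ∀ x : X, ∀ U : Set X, IsOpen U →
    (⋂ d ∈ D, up d) ∩ up x ⊆ U → ∃ d ∈ D, up d ∩ up x ⊆ U

/-- The space of the continuous maps `X → Y` with the topology of pointwise convergence (the
subspace topology of the product topology on `X → Y`). -/
abbrev ContMaps (X Y : Type*) [TopologicalSpace X] [TopologicalSpace Y] : Type _ :=
  {f : X → Y // Continuous f}

lemma up_homeo {Z W : Type*} [TopologicalSpace Z] [TopologicalSpace W] (e : Z ≃ₜ W) (a b : Z) :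
    e a ∈ closure {e b} ↔ a ∈ closure {b} := by
  rw [← specializes_iff_mem_closure, ← specializes_iff_mem_closure]
  exact e.isInducing.specializes_iff

lemma homeo {Z W : Type*} [TopologicalSpace Z] [TopologicalSpace W] (e : Z ≃ₜ W)
    (h : StrongDSpace Z) : StrongDSpace W := by
  have hZ := h.1
  refine ⟨e.symm.isEmbedding.t0Space, ?_⟩
  rintro D ⟨⟨d0, hd0⟩, hdir⟩ x U hU hsub
  have key : ∀ a b : W, a ∈ closure {b} ↔ e.symm a ∈ closure {e.symm b} := fun a b => by
    rw [up_homeo e.symm]
  obtain ⟨d, hd, hd'⟩ := h.2 (e ⁻¹' D) ⟨⟨e.symm d0, by simpa using hd0⟩, fun a ha b hb => by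
    obtain ⟨c, hc, h1, h2⟩ := hdir _ ha _ hb
    refine ⟨e.symm c, by simpa using hc, ?_, ?_⟩
    · rw [key] at h1; simpa using h1
    · rw [key] at h2; simpa using h2⟩ (e.symm x) (e ⁻¹' U) (hU.preimage e.continuous) (by
    rintro z ⟨hz1, hz2⟩
    apply hsub
    refine ⟨?_, ?_⟩
    · rw [mem_iInter₂] at hz1 ⊢
      intro d hd
      have := hz1 (e.symm d) (by simpa using hd)
      show d ∈ closure {e z}
      rw [key]
      simpa [up] using this
    · show x ∈ closure {e z}
      rw [key]
      simpa [up] using hz2)
  refine ⟨e d, hd, ?_⟩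
  rintro z ⟨hz1, hz2⟩
  have h1 : e.symm z ∈ e ⁻¹' U := by
    apply hd'
    refine ⟨?_, ?_⟩
    · show d ∈ closure {e.symm z}
      have : e d ∈ closure {z} := hz1
      rw [key] at this
      simpa using this
    · show e.symm x ∈ closure {e.symm z}
      have : x ∈ closure {z} := hz2
      rwa [key] at this
  simpa using h1

/-- There are a `T₀` space `X` and a strong `d`-space `Y` such that the space of continuous maps
`X → Y`, with the topology of pointwise convergence, is not a strong `d`-space. -/
theorem result : ∃ (X Y : Type) (_ : TopologicalSpace X) (_ : TopologicalSpace Y),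
    T0Space X ∧ StrongDSpace Y ∧ ¬ StrongDSpace (ContMaps X Y) := by
  obtain ⟨Y, tY, hY, hYY⟩ := Pool.Agent.X171.SD.exists_square
  refine ⟨Bool, Y, inferInstance, tY, inferInstance, hY, fun h => hYY ?_⟩
  have hall : ∀ f : Bool → Y, Continuous f := fun f => continuous_of_discreteTopology
  let e : ContMaps Bool Y ≃ₜ (Bool → Y) :=
    { toFun := Subtype.val
      invFun := fun f => ⟨f, hall f⟩
      left_inv := fun f => rfl
      right_inv := fun f => rfl
      continuous_toFun := continuous_subtype_val
      continuous_invFun := continuous_id.subtype_mk _ }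
  exact homeo e h

end Pool.Agent.Results.MP_5f2357_gt.FunctionSpaceFails
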